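import Pool.Agent.TH707.PM.Main

/-!
# How many strings of a random oracle have to be changed to make Partial MCSP easy?

Everything is relative to an oracle `A`: circuits have gates for `A`, and so has the partial minimum
circuit size problem `PMCSP A` (pairs of a partial truth table and a size in unary).

An adversary who knows the random oracle `O` changes, for all large `n`, at most `g n` of the
strings of length at most `n`; the result is the oracle `A`.

* If, for every `ε > 0`, `g n ≤ 2 ^ (n ^ ε)` for infinitely many `n`, then for almost every `O` and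
  for all these `A`, `PMCSP A` is not in `P^A`, not even in `coNP^A/poly`.
* Otherwise every oracle `O` can be changed such that `PMCSP A` is in `P^A`, and such that `PMCSP A`
  is in `ZPP^A` although `P^A ≠ NP^A`.
-/

set_option autoImplicit false

namespace Pool.Agent.Results.MP_d2e5f8_lc.ChangedStrings

open Pool.Agent.NPC Pool.Agent.H620R2.Gauge Pool.Agent.H943R6.MC Pool.Agent.TH707.PM
open Pool.Agent.H628R3.RO (randomOracle)
open Pool.Agent.W900.CH (Close)
open MeasureTheory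

theorem nullS (f : ℕ → ℝ)
    (hf : ∀ ε : ℝ, 0 < ε → ∃ᶠ N : ℕ in Filter.atTop, f N ≤ 2 ^ (Real.logb 2 N) ^ ε) :
    Null f {A : Oracle | WithAdvice (IsNP A) (PMCSP A)ᶜ} :=
  nullG hf _ fun _ hA => gap_of_pmcsp hA

theorem result (g : ℕ → ℝ) :
    ((∀ ε : ℝ, 0 < ε → ∃ᶠ n : ℕ in Filter.atTop, g n ≤ 2 ^ (n : ℝ) ^ ε) →
      ∀ᵐ O ∂randomOracle, ∀ A : Oracle, Close g O A → ¬ WithAdvice (IsNP A) (PMCSP A)ᶜ) ∧
    ((¬ ∀ ε : ℝ, 0 < ε → ∃ᶠ n : ℕ in Filter.atTop, g n ≤ 2 ^ (n : ℝ) ^ ε) →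
      ∀ O : Oracle,
        (∃ A : Oracle, Close g O A ∧ IsP A (PMCSP A)) ∧
        ∃ A : Oracle, Close g O A ∧ IsZPP A (PMCSP A) ∧ ∃ L, IsNP A L ∧ ¬ IsP A L) := by
  refine ⟨fun hg => ?_, fun hg O => ⟨?_, ?_⟩⟩
  · filter_upwards [Pool.Agent.W900.CH.ae_far_P nullS hg] with O hO A hA
    exact hO A hA
  · obtain ⟨A, h1, h2⟩ := Pool.Agent.W900.CH.exists_close_PSPACE hg O
    exact ⟨A, h1, isP_of_reduces (h2 _ (isNP_pmcsp A).isPSPACE)⟩
  · obtain ⟨A, h1, h2, L, h3, h4⟩ := Pool.Agent.W900.CH.exists_close_ZPP hg O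
    exact ⟨A, h1, h2 _ (Or.inr (isNP_pmcsp A).isPSPACE), L, h3.isNP, h4⟩

end Pool.Agent.Results.MP_d2e5f8_lc.ChangedStrings
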