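import Pool.Agent.TH707.EO.Main

/-!
# How many strings of an oracle have to be changed to make `PMCSP` hard?

Everything is relative to an oracle `A`. Circuits have gates for `A`, and
`PMCSP A` is the set of the pairs of a partial truth table and a size (in unary) of a circuit which
agrees with it.

If `g` is not bounded by a polynomial then every oracle `O` becomes, after changing (for all large
`n`) at most `g n` of the strings of length at most `n`, an oracle `A` for which `PMCSP A` is not in
`coNP^A/poly`. If `g` is bounded by a polynomial then there is an oracle `O` for which `PMCSP A`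
stays in `P^A/poly` after all such changes.
-/

set_option autoImplicit false

namespace Pool.Agent.Results.MP_d2e5f8_lc.ChangesOfEveryOracle

open Pool.Agent.NPC Pool.Agent.H620R2.Gauge Pool.Agent.H622R2.Ckt Pool.Agent.H943R6.MC
open Pool.Agent.TH707.EO
open Pool.Agent.W900.CH (Close)
open Pool.Agent.TH707.PM

theorem result (g : ℕ → ℝ) :
    ((¬ ∃ c : ℕ, ∀ᶠ n : ℕ in Filter.atTop, ∃ m ≥ n, g m ≤ (n : ℝ) ^ c) →
      ∀ O : Oracle, ∃ A : Oracle, Close g O A ∧ 
        ¬ WithAdvice (IsNP A) (PMCSP A)ᶜ) ∧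
    ((∃ c : ℕ, ∀ᶠ n : ℕ in Filter.atTop, ∃ m ≥ n, g m ≤ (n : ℝ) ^ c) →
      ∃ O : Oracle, ∀ A : Oracle, Close g O A → WithAdvice (IsP A) (PMCSP A)) := by
  refine ⟨fun hg O => ?_, fun hg => ?_⟩
  · obtain ⟨A, hA, h⟩ := many_wk 8 hg O
    refine ⟨A, hA, fun h1 => ?_⟩
    obtain ⟨L, h2, h3⟩ := gap_of_pmcsp h1
    exact h L (wk_of_solvesGap h2) h3
  · obtain ⟨O, hO⟩ := few_all hg
    exact ⟨O, fun A hA => hO A hA _ (isNP_pmcsp A).isPSPACE⟩

end Pool.Agent.Results.MP_d2e5f8_lc.ChangesOfEveryOracle
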