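import Pool.Agent.TH707.PM.Main

/-!
# The size of the set of the oracles relative to which Partial MCSP is easy

Everything is relative to an oracle `A`: circuits have gates for `A`, and so has the partial minimum
circuit size problem `PMCSP A` (pairs of a partial truth table and a size in unary).

For every gauge `f`, each of the sets of the oracles `A` with `PMCSP A ∈ P^A`, with
`PMCSP A ∈ coNP^A/poly`, and with `PMCSP A ∈ ZPP^A` and `P^A ≠ NP^A`, is a null set for `f` if and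
only if, for every `ε > 0`, `f N ≤ 2 ^ ((log N) ^ ε)` for infinitely many `N`.
-/

set_option autoImplicit false

namespace Pool.Agent.Results.MP_d2e5f8_lc.GaugeThreshold

open Pool.Agent.NPC Pool.Agent.H620R2.Gauge Pool.Agent.H943R6.MC Pool.Agent.TH707.PM

theorem result (f : ℕ → ℝ) :
    (Null f {A : Oracle | IsP A (PMCSP A)} ↔
        ∀ ε : ℝ, 0 < ε → ∃ᶠ N : ℕ in Filter.atTop, f N ≤ 2 ^ (Real.logb 2 N) ^ ε) ∧
      (Null f {A : Oracle | WithAdvice (IsNP A) (PMCSP A)ᶜ} ↔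
        ∀ ε : ℝ, 0 < ε → ∃ᶠ N : ℕ in Filter.atTop, f N ≤ 2 ^ (Real.logb 2 N) ^ ε) ∧
      (Null f {A : Oracle | IsZPP A (PMCSP A) ∧ ∃ L, IsNP A L ∧ ¬ IsP A L} ↔
        ∀ ε : ℝ, 0 < ε → ∃ᶠ N : ℕ in Filter.atTop, f N ≤ 2 ^ (Real.logb 2 N) ^ ε) := by
  obtain ⟨key, -⟩ := main_gap f
  refine ⟨key _ (Or.inl ?_) ?_, key _ (Or.inl ?_) ?_, key _ (Or.inr ?_) ?_⟩
  · intro A hA
    exact isP_of_reduces (hA _ (isNP_pmcsp A).isPSPACE)
  · intro A hA
    exact gap_of_pmcsp (IsP.compl hA).isNP.withAdvice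
  · intro A hA
    exact (IsP.compl (isP_of_reduces (hA _ (isNP_pmcsp A).isPSPACE))).isNP.withAdvice
  · intro A hA
    exact gap_of_pmcsp hA
  · rintro A h1 ⟨L, h2, h3⟩
    exact ⟨h1 _ (Or.inr (isNP_pmcsp A).isPSPACE), L, h2.isNP, h3⟩
  · rintro A ⟨h1, _⟩
    exact gap_of_pmcsp (isZPP_compl h1).isNP.withAdvice

end Pool.Agent.Results.MP_d2e5f8_lc.GaugeThreshold
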