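import Pool.Agent.TH733.RT.Use
import Pool.Agent.TH707.PM.Main

/-!
# Common translates of independent random oracles: Partial MCSP

`xor2 A B` is the symmetric difference of the oracles `A` and `B`, the translate of `A` by `B`.

* For every sequence `B 0, B 1, ...` of oracles there is one oracle `A` such that, relative to every
  translate of `A` by a `B i`, `PSPACE` is `P`; so Partial MCSP is in `P` relative to all of them.
* Let the `B i` be independent random oracles. Almost surely, for every set `I` of numbers there is
  one oracle `A` such that, relative to the translate by `B i`, for all `i` in `I`, `PSPACE` is `P`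
  and Partial MCSP is in `P`, while for all `i` outside `I` the complement of Partial MCSP is not in
  `NP` with polynomial advice.

So the set of the `i` with Partial MCSP in `P` relative to the translate by `B i` can be prescribed.

Proof. `A` codes the computations relative to its translates by the `B i`, `i ∈ I`, masked by
`B i`; on the strings of length at most `n` it depends on `I` only below `log n`; for a fixed `I` the
translate by an independent random oracle is random; and the oracles with easy Partial MCSP form a
null set for slowly growing gauges (starting files `H943R6`, `TH707.PM`).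
-/

set_option autoImplicit false

namespace Pool.Agent.Results.MP_d2e5f8_lc.IndependentTranslates

open Pool.Agent.NPC Pool.Agent.H620R2.Gauge Pool.Agent.H943R6.MC Pool.Agent.TH707.PM
open Pool.Agent.TH733.RT MeasureTheory

theorem nullS : Null slowG {A : Oracle | WithAdvice (IsNP A) (PMCSP A)ᶜ} :=
  nullG (fun _ hε => (slow_p hε).frequently) _ fun _ hA => gap_of_pmcsp hA

theorem result :
    (∀ B : ℕ → Oracle, ∃ A : Oracle, ∀ i,
      (∀ L, IsPSPACE (xor2 A (B i)) L → IsP (xor2 A (B i)) L) ∧
      IsP (xor2 A (B i)) (PMCSP (xor2 A (B i)))) ∧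
    ∀ᵐ B ∂randomSeq, ∀ I : Set ℕ, ∃ A : Oracle,
      (∀ i ∈ I, (∀ L, IsPSPACE (xor2 A (B i)) L → IsP (xor2 A (B i)) L) ∧
        IsP (xor2 A (B i)) (PMCSP (xor2 A (B i)))) ∧
      ∀ i ∉ I, ¬ WithAdvice (IsNP (xor2 A (B i))) (PMCSP (xor2 A (B i)))ᶜ := by
  obtain ⟨h1, h2⟩ := use_p nullS
  refine ⟨fun B => ?_, ?_⟩
  · obtain ⟨A, hA⟩ := h1 B
    exact ⟨A, fun i => ⟨fun L hL => isP_of_reduces (hA i L hL),
      isP_of_reduces (hA i _ (isNP_pmcsp _).isPSPACE)⟩⟩
  · filter_upwards [h2] with B hB I
    obtain ⟨A, h3, h4⟩ := hB I
    exact ⟨A, fun i hi => ⟨fun L hL => isP_of_reduces (h3 i hi L hL),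
      isP_of_reduces (h3 i hi _ (isNP_pmcsp _).isPSPACE)⟩, fun i hi h => h4 i hi h⟩

end Pool.Agent.Results.MP_d2e5f8_lc.IndependentTranslates
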